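import Mathlib
import Pool.Graph.R_seed8.Results.MP_9dade1_co.SymmetricDecomposition
import Pool.Agent.KS6_50.CH.Mono

set_option autoImplicit false

/-!
# The symmetric decomposition of the chromatic numerator polynomial: monotonicity, signs, extremes

Let `h_G = a + z b` be the symmetric decomposition of the numerator `h_G` of the generating
function of the chromatic polynomial of a graph `G` with `d ≥ 1` vertices.

* `b_i > 0` for all `i < d`, and `a_i < 0` exactly for `1 ≤ i < d` and `G` not edgeless (and all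
  other coefficients vanish);
* adding edges decreases all coefficients of `a` and increases all coefficients of `b`, and `b_0`
  strictly; so the extreme cases are the edgeless graph (`a = 0`, `b_i` the Eulerian numbers) and
  the complete graph (`a_i = -d!`, `b_i = d!`);
* the increments under the deletion of an edge are explicit: sums of two coefficients of `h_{G/e}`;
* adding edges moves the mass `d!` of `h_G` to the right (all partial sums decrease).
-/

namespace Pool.Agent.Results.MP_9dade1_co.MonotoneDecomposition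

open Finset Polynomial Pool.Agent.Q281.Chrom Pool.Agent.KS6_50.CH

/-- The number `χ_G(n)` of proper colourings of `G` with `n` colours. -/
noncomputable def chi {V : Type} (G : SimpleGraph V) (n : ℕ) : ℕ :=
  Nat.card (G.Coloring (Fin n))

/-- `h_G(z) = (1 - z)^(d + 1) * ∑ χ_G(n) z^n` as a power series, `d` the number of vertices. -/
noncomputable def hSeries {V : Type} [Fintype V] (G : SimpleGraph V) : PowerSeries ℤ :=
  PowerSeries.mk (fun n => (chi G n : ℤ)) * (1 - PowerSeries.X) ^ (Fintype.card V + 1)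

/-- The coefficient `h_i` of `h_G`. -/
noncomputable def hCoeff {V : Type} [Fintype V] (G : SimpleGraph V) (i : ℕ) : ℤ :=
  PowerSeries.coeff i (hSeries G)

/-- `p` is `m`-symmetric: `p(z) = z^m p(1/z)`. -/
def IsSym (m : ℕ) (p : ℤ[X]) : Prop := p.natDegree ≤ m ∧ ∀ i ≤ m, p.coeff i = p.coeff (m - i)

/-- `h_G = a + z b` with `a` `d`-symmetric and `b` `(d - 1)`-symmetric. -/
def Dec {V : Type} [Fintype V] (G : SimpleGraph V) (a b : ℤ[X]) : Prop :=
  hSeries G = ((a + X * b : ℤ[X]) : PowerSeries ℤ) ∧
    IsSym (Fintype.card V) a ∧ IsSym (Fintype.card V - 1) b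

/-- The Eulerian numbers `A(d, i)` (numbers of permutations of `d` letters with `i` descents). -/
def eulerian : ℕ → ℕ → ℤ
  | 0, 0 => 1
  | 0, _ + 1 => 0
  | d + 1, 0 => eulerian d 0
  | d + 1, i + 1 => (i + 2) * eulerian d (i + 1) + (d - i) * eulerian d i

/-- The contraction of the edge `u v` of `G`: remove `v` and join `u` to the neighbours of `v`. -/
def contract {V : Type} (G : SimpleGraph V) (u v : V) : SimpleGraph {x : V // x ≠ v} where
  Adj x y := x ≠ y ∧ (G.Adj x y ∨ (x.1 = u ∧ G.Adj v y) ∨ (y.1 = u ∧ G.Adj x v))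
  symm := ⟨by
    rintro x y ⟨h1, h2⟩
    refine ⟨h1.symm, ?_⟩
    rcases h2 with h2 | ⟨h2, h3⟩ | ⟨h2, h3⟩
    · exact Or.inl h2.symm
    · exact Or.inr (Or.inr ⟨h2, h3.symm⟩)
    · exact Or.inr (Or.inl ⟨h2, h3.symm⟩)⟩
  loopless := ⟨fun _ h => h.1 rfl⟩

theorem hSeries_eq {V : Type} [Fintype V] (G : SimpleGraph V) : hSeries G = hs G := by
  classical
  rw [hSeries, hs]
  simp only [chi, card_coloring]

theorem hCoeff_eq {V : Type} [Fintype V] (G : SimpleGraph V) (i : ℕ) : hCoeff G i = hc G i := by
  rw [hCoeff, hSeries_eq, hc]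

theorem contract_eq {V : Type} (G : SimpleGraph V) (u v : V) : contract G u v = contr G u v := by
  ext x y
  rfl

theorem eulerian_eq : ∀ d i, eulerian d i = Pool.Agent.KS6_50.CH.eulerian d i
  | 0, 0 => rfl
  | 0, _ + 1 => rfl
  | d + 1, 0 => eulerian_eq d 0
  | d + 1, i + 1 => by
    change (i + 2) * eulerian d (i + 1) + (d - i) * eulerian d i =
      (i + 2) * Pool.Agent.KS6_50.CH.eulerian d (i + 1) +
        (d - i) * Pool.Agent.KS6_50.CH.eulerian d i
    rw [eulerian_eq d (i + 1), eulerian_eq d i]

section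

variable {V : Type} [Fintype V]

theorem Dec.coeff {G : SimpleGraph V} {a b : ℤ[X]} (h : Dec G a b) (i : ℕ) :
    hc G i = a.coeff i + (if i = 0 then 0 else b.coeff (i - 1)) := by
  rw [← hCoeff_eq, hCoeff, h.1, Polynomial.coeff_coe, coeff_add]
  cases i with
  | zero => simp
  | succ i => simp [coeff_X_mul]

theorem Dec.a_zero {G : SimpleGraph V} {a b : ℤ[X]} (h : Dec G a b) {i : ℕ}
    (hi : Fintype.card V < i) : a.coeff i = 0 :=
  coeff_eq_zero_of_natDegree_lt (lt_of_le_of_lt h.2.1.1 hi)

theorem Dec.b_zero {G : SimpleGraph V} {a b : ℤ[X]} (h : Dec G a b) {i : ℕ}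
    (hi : Fintype.card V ≤ i) (hV : 0 < Fintype.card V) : b.coeff i = 0 :=
  coeff_eq_zero_of_natDegree_lt (lt_of_le_of_lt h.2.2.1 (by omega))

theorem Dec.low {G : SimpleGraph V} {a b : ℤ[X]} (h : Dec G a b) (i : ℕ) :
    ∑ j ∈ range (i + 1), hc G j = ∑ j ∈ range (i + 1), a.coeff j + ∑ j ∈ range i, b.coeff j := by
  induction i with
  | zero => simp [h.coeff]
  | succ i ih =>
    rw [sum_range_succ, ih, h.coeff (i + 1), sum_range_succ a.coeff (i + 1),
      sum_range_succ b.coeff i, if_neg (Nat.succ_ne_zero i), Nat.add_sub_cancel]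
    ring

theorem Dec.high {G : SimpleGraph V} {a b : ℤ[X]} (h : Dec G a b) (i : ℕ)
    (hi : i ≤ Fintype.card V) :
    ∑ j ∈ range i, hc G (Fintype.card V - j) =
      ∑ j ∈ range i, a.coeff j + ∑ j ∈ range i, b.coeff j := by
  induction i with
  | zero => simp
  | succ i ih =>
    rw [sum_range_succ, ih (by omega), h.coeff (Fintype.card V - i), sum_range_succ a.coeff i,
      sum_range_succ b.coeff i, if_neg (by omega), ← h.2.1.2 i (by omega)]
    have h1 : Fintype.card V - i - 1 = Fintype.card V - 1 - i := by omega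
    rw [h1, ← h.2.2.2 i (by omega)]
    ring

theorem Dec.a_eq {G : SimpleGraph V} {a b : ℤ[X]} (h : Dec G a b) {i : ℕ}
    (hi : i ≤ Fintype.card V) : a.coeff i = - SS G i := by
  rw [SS, h.low i, h.high i hi, sum_range_succ a.coeff i]
  ring

theorem Dec.b_eq {G : SimpleGraph V} {a b : ℤ[X]} (h : Dec G a b) {i : ℕ}
    (hi : i < Fintype.card V) : b.coeff i = BB G i := by
  rw [BB, h.low i, h.high (i + 1) hi, sum_range_succ b.coeff i]
  ring

theorem exists_dec (hV : 1 ≤ Fintype.card V) (G : SimpleGraph V) : ∃ a b, Dec G a b := by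
  obtain ⟨a, b, h1, h2, h3, _, _⟩ :=
    Pool.Agent.Results.MP_9dade1_co.SymmetricDecomposition.result V G hV
  exact ⟨a, b, h1, h2, h3⟩

theorem SS_zero (hV : 0 < Fintype.card V) (G : SimpleGraph V) : SS G 0 = 0 := by
  classical
  simp [SS, hc_zero_eq hV G]

theorem a_symm {G : SimpleGraph V} {a b : ℤ[X]} (h : Dec G a b) :
    a.coeff (Fintype.card V) = a.coeff 0 := by
  have := h.2.1.2 0 (by omega)
  rw [this, Nat.sub_zero]

end

/-- **Monotonicity, exact signs and extreme values of the symmetric decomposition.** -/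
theorem result : ∀ (V : Type) [Fintype V] [DecidableEq V], 1 ≤ Fintype.card V →
    -- the decomposition exists and is unique
    (∀ G : SimpleGraph V, ∃! p : ℤ[X] × ℤ[X], Dec G p.1 p.2) ∧
    -- Q1, with the exact signs of all coefficients and sharp bounds
    (∀ (G : SimpleGraph V) (a b : ℤ[X]), Dec G a b →
      (∀ i, a.coeff i ≤ 0) ∧ (∀ i, 0 ≤ b.coeff i) ∧
      (∀ i, a.coeff i < 0 ↔ G ≠ ⊥ ∧ 1 ≤ i ∧ i < Fintype.card V) ∧
      (∀ i, 0 < b.coeff i ↔ i < Fintype.card V) ∧
      (∀ i, -((Fintype.card V).factorial : ℤ) ≤ a.coeff i) ∧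
      (∀ i, b.coeff i ≤ ((Fintype.card V).factorial : ℤ)) ∧
      (∀ i, i < Fintype.card V → eulerian (Fintype.card V) i ≤ b.coeff i)) ∧
    -- monotonicity in the set of edges
    (∀ (G G' : SimpleGraph V) (a b a' b' : ℤ[X]), Dec G a b → Dec G' a' b' → G ≤ G' →
      (∀ i, a'.coeff i ≤ a.coeff i) ∧ (∀ i, b.coeff i ≤ b'.coeff i) ∧
      (G ≠ G' → b.coeff 0 < b'.coeff 0)) ∧
    -- deletion and contraction
    (∀ (G : SimpleGraph V) (u v : V) (a b a' b' : ℤ[X]), G.Adj u v → Dec G a b →
      Dec (G.deleteEdges {s(u, v)}) a' b' →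
      (∀ i, i ≤ Fintype.card V → a.coeff i = a'.coeff i -
        (hCoeff (contract G u v) i + hCoeff (contract G u v) (Fintype.card V - i))) ∧
      (∀ i, i < Fintype.card V → b.coeff i = b'.coeff i +
        (hCoeff (contract G u v) i + hCoeff (contract G u v) (Fintype.card V - 1 - i)))) ∧
    -- the complete graph and the edgeless graph
    (∀ a b : ℤ[X], Dec (⊤ : SimpleGraph V) a b →
      (∀ i, 1 ≤ i → i < Fintype.card V → a.coeff i = -((Fintype.card V).factorial : ℤ)) ∧
      (∀ i, i < Fintype.card V → b.coeff i = ((Fintype.card V).factorial : ℤ))) ∧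
    (∀ a b : ℤ[X], Dec (⊥ : SimpleGraph V) a b →
      a = 0 ∧ ∀ i, i < Fintype.card V → b.coeff i = eulerian (Fintype.card V) i) ∧
    -- adding edges moves the mass `d!` of `h_G` to the right
    (∀ G : SimpleGraph V, ∑ j ∈ range (Fintype.card V + 1), hCoeff G j =
      ((Fintype.card V).factorial : ℤ)) ∧
    (∀ G G' : SimpleGraph V, G ≤ G' → ∀ i,
      ∑ j ∈ range (i + 1), hCoeff G' j ≤ ∑ j ∈ range (i + 1), hCoeff G j) := by
  intro V _ _ hV
  have hV' : 0 < Fintype.card V := hV
  -- values
  have aL : ∀ (G : SimpleGraph V) (a b : ℤ[X]), Dec G a b → ∀ i,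
      a.coeff i = if i ≤ Fintype.card V then - SS G i else 0 := by
    intro G a b h i
    split_ifs with hi
    · exact h.a_eq hi
    · exact h.a_zero (by omega)
  have bL : ∀ (G : SimpleGraph V) (a b : ℤ[X]), Dec G a b → ∀ i,
      b.coeff i = if i < Fintype.card V then BB G i else 0 := by
    intro G a b h i
    split_ifs with hi
    · exact h.b_eq hi
    · exact h.b_zero (by omega) hV'
  have ends : ∀ (G : SimpleGraph V), SS G 0 = 0 ∧ SS G (Fintype.card V) = 0 := by
    intro G
    obtain ⟨a, b, h⟩ := exists_dec hV G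
    have h1 := h.a_eq (i := 0) (by omega)
    have h2 := h.a_eq (i := Fintype.card V) le_rfl
    have h3 := a_symm h
    have h4 := SS_zero hV' G
    refine ⟨h4, ?_⟩
    rw [h3, h1, h4] at h2
    linarith
  have topSS : ∀ i, i ≤ Fintype.card V →
      SS (⊤ : SimpleGraph V) i ≤ ((Fintype.card V).factorial : ℤ) := by
    intro i hi
    rcases Nat.eq_zero_or_pos i with h0 | h0
    · rw [h0, (ends ⊤).1]
      positivity
    · rcases Nat.lt_or_ge i (Fintype.card V) with h1 | h1
      · rw [SS_top i h0 h1]
      · rw [le_antisymm hi h1, (ends ⊤).2]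
        positivity
  refine ⟨fun G => ?_, fun G a b h => ?_, fun G G' a b a' b' h h' hle => ?_,
    fun G u v a b a' b' huv h h' => ?_, fun a b h => ?_, fun a b h => ?_, fun G => ?_,
    fun G G' hle i => ?_⟩
  · obtain ⟨a, b, h⟩ := exists_dec hV G
    refine ⟨(a, b), h, ?_⟩
    rintro ⟨a', b'⟩ h'
    refine Prod.ext ?_ ?_
    · ext i
      rw [aL G a b h i]
      exact aL G a' b' h' i
    · ext i
      rw [bL G a b h i]
      exact bL G a' b' h' i
  · refine ⟨fun i => ?_, fun i => ?_, fun i => ?_, fun i => ?_, fun i => ?_, fun i => ?_,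
      fun i hi => ?_⟩
    · rw [aL G a b h i]
      split_ifs with hi
      · have := SS_nonneg hV' G i hi
        linarith
      · exact le_rfl
    · rw [bL G a b h i]
      split_ifs with hi
      · exact (BB_pos hV' G i hi).le
      · exact le_rfl
    · rw [aL G a b h i]
      constructor
      · intro h1
        split_ifs at h1 with hi
        · refine ⟨?_, ?_, ?_⟩
          · rintro rfl
            rw [SS_bot hV' i hi] at h1
            simp at h1
          · by_contra h0
            obtain rfl : i = 0 := by omega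
            rw [(ends G).1] at h1
            simp at h1
          · by_contra h0
            obtain rfl : i = Fintype.card V := by omega
            rw [(ends G).2] at h1
            simp at h1
        · exact absurd h1 (lt_irrefl _)
      · rintro ⟨h1, h2, h3⟩
        rw [if_pos h3.le]
        have := SS_pos G h1 i h2 h3
        linarith
    · rw [bL G a b h i]
      constructor
      · intro h1
        by_contra h2
        rw [if_neg h2] at h1
        exact lt_irrefl _ h1
      · intro h1
        rw [if_pos h1]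
        exact BB_pos hV' G i h1
    · rw [aL G a b h i]
      split_ifs with hi
      · have h1 := SS_mono i hi (le_top : G ≤ ⊤)
        have h2 := topSS i hi
        linarith
      · have : (0 : ℤ) ≤ ((Fintype.card V).factorial : ℤ) := by positivity
        linarith
    · rw [bL G a b h i]
      split_ifs with hi
      · have h1 := BB_mono i hi (le_top : G ≤ ⊤)
        rw [BB_top i hi] at h1
        exact h1
      · positivity
    · rw [bL G a b h i, if_pos hi, eulerian_eq, ← BB_bot_eulerian hV' i hi]
      exact BB_mono i hi bot_le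
  · refine ⟨fun i => ?_, fun i => ?_, fun hne => ?_⟩
    · rw [aL G a b h i, aL G' a' b' h' i]
      split_ifs with hi
      · have := SS_mono i hi hle
        linarith
      · exact le_rfl
    · rw [bL G a b h i, bL G' a' b' h' i]
      split_ifs with hi
      · exact BB_mono i hi hle
      · exact le_rfl
    · rw [bL G a b h 0, bL G' a' b' h' 0, if_pos hV', if_pos hV']
      exact BB_zero_strict hle hne
  · refine ⟨fun i hi => ?_, fun i hi => ?_⟩
    · rw [h.a_eq hi, h'.a_eq hi, contract_eq, hCoeff_eq, hCoeff_eq, SS_del G u v huv i hi]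
      ring
    · rw [h.b_eq hi, h'.b_eq hi, contract_eq, hCoeff_eq, hCoeff_eq, BB_del G u v huv i hi]
      ring
  · refine ⟨fun i h1 h2 => ?_, fun i h1 => ?_⟩
    · rw [h.a_eq h2.le, SS_top i h1 h2]
    · rw [h.b_eq h1, BB_top i h1]
  · refine ⟨?_, fun i hi => ?_⟩
    · ext i
      rw [aL ⊥ a b h i, coeff_zero]
      split_ifs with hi
      · rw [SS_bot hV' i hi, neg_zero]
      · rfl
    · rw [h.b_eq hi, eulerian_eq, BB_bot_eulerian hV' i hi]
  · simp only [hCoeff_eq]
    exact total_sum hV' G
  · simp only [hCoeff_eq]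
    exact partial_anti i hle

end Pool.Agent.Results.MP_9dade1_co.MonotoneDecomposition
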